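import Pool.Agent.helper22.GS.Spec

/-!
# HW: a vector of given norm in a hyperplane, odd characteristic
-/

set_option autoImplicit false

namespace Pool.Agent.GS

open Module

noncomputable section

theorem HW_ex {F W : Type} [Field F] [AddCommGroup W] [Module F W] [FiniteDimensional F W]
    (b : LinearMap.BilinForm F W) (h2 : (2:F) ≠ 0) (hb : Sym b) (v r : W) (U : Submodule F W)
    (hU : ∀ x, x ∈ U ↔ b v x = 0 ∧ b r x = 0) (hd : 2 ≤ finrank F U)
    (hr : ∀ s t : F, b r (s • v + t • r) = 0 → ∃ c : F, s • v + t • r = c • v) :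
    ∃ x ∈ U, b x x ≠ 0 := by
  classical
  by_contra hc
  push Not at hc
  have hxy : ∀ x ∈ U, ∀ y ∈ U, b x y = 0 := by
    intro x hx y hy
    have h1 := hc (x + y) (U.add_mem hx hy)
    rw [map_add, map_add, LinearMap.add_apply, LinearMap.add_apply, hc x hx, hc y hy,
      hb.symm y x] at h1
    have h3 : 2 * b x y = 0 := by linear_combination h1
    exact (mul_eq_zero.mp h3).resolve_left h2
  have hle : U ≤ Submodule.span F {v} := by
    intro x hx
    have h1 : b x ∈ Submodule.span F (Set.range ![b v, b r]) := by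
      refine mem_span_of_iInf_ker_le_ker ?_
      intro y hy
      rw [Submodule.mem_iInf] at hy
      have hy0 := hy 0
      have hy1 := hy 1
      rw [LinearMap.mem_ker] at hy0 hy1 ⊢
      exact hxy x hx y ((hU y).mpr ⟨hy0, hy1⟩)
    obtain ⟨c, hcc⟩ := (Submodule.mem_span_range_iff_exists_fun F).mp h1
    rw [Fin.sum_univ_two] at hcc
    simp only [Matrix.cons_val_zero, Matrix.cons_val_one] at hcc
    have h3 : x = c 0 • v + c 1 • r := by
      rw [← sub_eq_zero]
      refine hb.nd _ fun y => ?_
      have h4 := LinearMap.congr_fun hcc y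
      rw [LinearMap.add_apply, LinearMap.smul_apply, LinearMap.smul_apply] at h4
      rw [map_sub, map_add, map_smul, map_smul, LinearMap.sub_apply, LinearMap.add_apply,
        LinearMap.smul_apply, LinearMap.smul_apply, h4, sub_self]
    have h5 := ((hU x).mp hx).2
    rw [h3] at h5
    obtain ⟨k, hk⟩ := hr _ _ h5
    rw [h3, hk]
    exact Submodule.smul_mem _ _ (Submodule.mem_span_singleton_self v)
  have h6 := Submodule.finrank_mono hle
  have h7 : finrank F (Submodule.span F ({v} : Set W)) ≤ 1 := by
    refine (finrank_span_le_card _).trans ?_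
    simp
  omega

theorem HW_ker {F W : Type} [Field F] [AddCommGroup W] [Module F W] [FiniteDimensional F W]
    (f : W →ₗ[F] F) : finrank F W ≤ finrank F (LinearMap.ker f) + 1 := by
  have h1 := LinearMap.finrank_range_add_finrank_ker f
  have h2 : finrank F (LinearMap.range f) ≤ 1 := by
    have := Submodule.finrank_le (LinearMap.range f)
    rwa [finrank_self] at this
  omega

theorem HW_aux (hUN : UN_stmt) (hCM : CM_stmt) {F W ι : Type} [Field F] [Finite F]
    [AddCommGroup W] [Module F W] [FiniteDimensional F W] [Fintype ι] [DecidableEq ι]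
    (b : LinearMap.BilinForm F W) (h2 : ringChar F ≠ 2) (hb : Sym b) (β₀ : Basis ι F W)
    (h3 : 3 ≤ finrank F W) (v : W) (hv : v ≠ 0) (δ : F) (hδ : δ ≠ 0)
    (hyp : finrank F W = 3 → b v v = 0 → IsSquare (-(δ * dt b β₀))) :
    ∃ w, b v w = 0 ∧ b w w = δ := by
  classical
  have h20 : (2:F) ≠ 0 := Ring.two_ne_zero h2
  by_cases hvv : b v v = 0
  · -- a non-isotropic vector in the hyperplane
    obtain ⟨w₁, hw₁, hc⟩ := HW_ex b h20 hb v v (LinearMap.ker (b v))
      (fun x => by rw [LinearMap.mem_ker, and_self]) (by have := HW_ker (b v); omega)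
      (fun s t _ => ⟨s + t, (add_smul s t v).symm⟩)
    rw [LinearMap.mem_ker] at hw₁
    have hw₁' : b w₁ v = 0 := by rw [hb.symm, hw₁]
    by_cases hm : finrank F W = 3
    · obtain ⟨W', hW', hsym, hfin, hdt⟩ := hCM b hb β₀ w₁ hc
      have hvW : v ∈ W' := (hW' v).mpr hw₁'
      set v₀ : W' := ⟨v, hvW⟩ with hv₀
      have hv₀0 : v₀ ≠ 0 := by
        intro h0
        exact hv (congrArg Subtype.val h0)
      obtain ⟨v₁, hv₁⟩ : ∃ v₁ : W', b v v₁ ≠ 0 := by
        by_contra hcon
        push Not at hcon
        exact hv₀0 (hsym.nd v₀ fun y => hcon y)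
      have hli : LinearIndependent F ![v₀, v₁] := by
        rw [LinearIndependent.pair_iff]
        intro s t hst
        have h5 : b v (s • v + t • (v₁ : W)) = 0 := by
          have h6 : s • v + t • (v₁ : W) = 0 := congrArg Subtype.val hst
          rw [h6, map_zero]
        rw [map_add, map_smul, map_smul, hvv, smul_zero, zero_add, smul_eq_mul] at h5
        have ht : t = 0 := (mul_eq_zero.mp h5).resolve_right hv₁
        rw [ht, zero_smul, add_zero] at hst
        exact ⟨(smul_eq_zero.mp hst).resolve_right hv₀0, ht⟩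
      have hcardeq : Fintype.card (Fin 2) = finrank F W' := by
        rw [Fintype.card_fin]; omega
      set γ := basisOfLinearIndependentOfCardEqFinrank hli hcardeq with hγ
      have hγ0 : γ 0 = v₀ := by
        rw [hγ, coe_basisOfLinearIndependentOfCardEqFinrank]; rfl
      have hγ1 : γ 1 = v₁ := by
        rw [hγ, coe_basisOfLinearIndependentOfCardEqFinrank]; rfl
      obtain ⟨hA, q, hq⟩ := hdt (Fin 2) γ
      obtain ⟨p, hp⟩ := hyp hm hvv
      have hdet : dt (b.domRestrict₁₂ W' W') γ = -(b v v₁ * b v v₁) := by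
        unfold dt
        rw [Matrix.det_fin_two]
        simp only [Matrix.of_apply, hγ0, hγ1, LinearMap.domRestrict₁₂_apply]
        have e1 : b (v₀ : W) (v₀ : W) = 0 := hvv
        have e2 : b (v₁ : W) (v₀ : W) = b v v₁ := hb.symm _ _
        have e3 : b (v₀ : W) (v₁ : W) = b v v₁ := rfl
        rw [e1, e2, e3]
        ring
      rw [hdet] at hq
      set A := dt b β₀
      set h := b v v₁
      set c := b w₁ w₁
      refine ⟨(p * q / (A * h * c)) • w₁, ?_, ?_⟩
      · rw [map_smul, hw₁, smul_zero]
      · rw [map_smul, map_smul, LinearMap.smul_apply, smul_eq_mul, smul_eq_mul]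
        have h7 : (p * p) * (q * q) = δ * A ^ 2 * c * h ^ 2 := by
          rw [← hp, ← hq]; ring
        have h8 : p * q / (A * h * c) * (p * q / (A * h * c) * c) =
            (p * p) * (q * q) / (A ^ 2 * h ^ 2 * c) := by
          field_simp
        change p * q / (A * h * c) * (p * q / (A * h * c) * c) = δ
        rw [h8, h7]
        field_simp
    · -- dimension at least four
      obtain ⟨w₂, hw₂, hc₂⟩ := HW_ex b h20 hb v w₁ (LinearMap.ker (b v) ⊓ LinearMap.ker (b w₁))
        (fun x => by rw [Submodule.mem_inf, LinearMap.mem_ker, LinearMap.mem_ker])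
        (by
          have e1 := HW_ker (b v)
          have e2 := HW_ker (b w₁)
          have e3 := Submodule.finrank_sup_add_finrank_inf_eq (LinearMap.ker (b v))
            (LinearMap.ker (b w₁))
          have e4 := Submodule.finrank_le (LinearMap.ker (b v) ⊔ LinearMap.ker (b w₁))
          omega)
        (by
          intro s t hst
          rw [map_add, map_smul, map_smul, hw₁', smul_zero, zero_add, smul_eq_mul] at hst
          have ht : t = 0 := (mul_eq_zero.mp hst).resolve_right hc
          exact ⟨s, by rw [ht, zero_smul, add_zero]⟩)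
      rw [Submodule.mem_inf, LinearMap.mem_ker, LinearMap.mem_ker] at hw₂
      have : Fintype F := Fintype.ofFinite F
      obtain ⟨X, Y, hXY⟩ : ∃ X Y : F, b w₁ w₁ * X ^ 2 + b w₂ w₂ * Y ^ 2 = δ := by
        obtain ⟨X, Y, h⟩ := FiniteField.exists_root_sum_quadratic
          (f := Polynomial.C (b w₁ w₁) * Polynomial.X ^ 2 + Polynomial.C (-δ))
          (g := Polynomial.C (b w₂ w₂) * Polynomial.X ^ 2)
          (by
            rw [Polynomial.degree_add_C]
            · exact Polynomial.degree_C_mul_X_pow 2 hc
            · rw [Polynomial.degree_C_mul_X_pow 2 hc]; norm_num)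
          (Polynomial.degree_C_mul_X_pow 2 hc₂)
          (FiniteField.odd_card_of_char_ne_two h2)
        refine ⟨X, Y, ?_⟩
        simp only [Polynomial.eval_add, Polynomial.eval_mul, Polynomial.eval_C,
          Polynomial.eval_pow, Polynomial.eval_X] at h
        linear_combination h
      refine ⟨X • w₁ + Y • w₂, ?_, ?_⟩
      · rw [map_add, map_smul, map_smul, hw₁, hw₂.1, smul_zero, smul_zero, add_zero]
      · have e5 : b w₂ w₁ = 0 := by rw [hb.symm, hw₂.2]
        simp only [map_add, map_smul, LinearMap.add_apply, LinearMap.smul_apply, smul_eq_mul,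
          hw₂.2, e5]
        linear_combination hXY
  · obtain ⟨W', hW', hsym, hfin, -⟩ := hCM b hb β₀ v hvv
    obtain ⟨w, hw⟩ := hUN (b.domRestrict₁₂ W' W') h2 hsym (by omega) δ hδ
    exact ⟨w, (hW' w).mp w.2, hw⟩

theorem HW (hUN : UN_stmt) (hCM : CM_stmt) (hBF : BF_stmt) : HW_stmt := by
  intro F K ι _ _ _ _ _ _ _ β₀ h2 h3 β u δ' hβ hu hδ hyp
  have hF : Finite F := Finite.of_injective (algebraMap F K) (algebraMap F K).injective
  have hsym : Sym (bf F K β) := hBF.1 β hβ
  have hbv : ∀ w, bf F K β (β * u) w = Algebra.trace F K (u * w) := by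
    intro w
    rw [bf_apply]
    congr 1
    field_simp
  obtain ⟨w, hw1, hw2⟩ := HW_aux hUN hCM (bf F K β) h2 hsym β₀ h3 (β * u) (mul_ne_zero hβ hu) δ' hδ
    (by
      intro hm h0
      refine hyp hm ?_
      rw [hbv] at h0
      rw [← h0]
      congr 1
      ring)
  exact ⟨w, by rw [← hbv, hw1], hw2⟩

end

end Pool.Agent.GS
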