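import Pool.Agent.helper22.GS.Spec

/-!
# THE: assembly for even dimension
-/

set_option autoImplicit false

namespace Pool.Agent.GS

open Module

theorem THE (hBF : BF_stmt) (hHA : HA_stmt) (hHB : HB_stmt) (hME : ME_stmt) (hAE : AE_stmt) :
    THE_stmt := by
  intro F _ _ r k τ hr hr2 hDv hτ
  have hk : 1 ≤ k := by have := hDv.pos; omega
  obtain ⟨K, _, _, σ, hHD, hsq⟩ : ∃ (K : Type) (_ : Field K) (_ : Algebra F K) (σ : K),
      HD F K r (2 * k) σ ∧ IsSquare σ := by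
    by_cases h2 : ringChar F = 2
    · exact hHB r (2 * k) h2 hr hr2 hDv
    · exact (hHA r (2 * k) h2 hr hr2 hDv).1
  have hfin : Finite K := hHD.fin
  have hfd : FiniteDimensional F K := Module.Finite.of_finite
  obtain ⟨α, β, u, w, hα, hβ, hαβ, hu, hw⟩ := hME k hk hHD.rk σ τ hHD.ne hτ hsq
  obtain ⟨L, hL1, hL2, hL3⟩ := hAE r k σ α β τ u w hHD hτ hα hβ hαβ hu hw
  obtain ⟨-, hAlt, hrk⟩ := hBF (F := F) (K := K)
  refine ⟨K × K, inferInstance, inferInstance, B0 F K, L, inferInstance, ?_, hAlt, hL1, hL2, hL3⟩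
  rw [hrk, hHD.rk]

end Pool.Agent.GS
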